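import Pool.Agent.KS6_17.VS.Main

set_option autoImplicit false

open Set Filter Topology

namespace Pool.Agent.KS6_17.VS

/-- `C × (ℕ ∪ {none})`, where the points `(c, m)`, `m ∈ ℕ`, are isolated, and the neighbourhoods of
`(c, none)` are the sets containing `V × (ℕ ∪ {none}) \ {c} × ℕ` for some neighbourhood `V` of
`c`. -/
def Dup (C : Type) : Type := C × Option ℕ

section

variable {C : Type} [TopologicalSpace C]

instance : TopologicalSpace (Dup C) where
  IsOpen U := ∀ c : C, (c, none) ∈ U → ∃ V ∈ nhds c, ∀ d ∈ V, ∀ o, (d = c → o = none) → (d, o) ∈ U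
  isOpen_univ := fun c _ => ⟨Set.univ, Filter.univ_mem, fun _ _ _ _ => trivial⟩
  isOpen_inter := by
    intro s t hs ht c hc
    obtain ⟨V, h1, h2⟩ := hs c hc.1
    obtain ⟨W, h3, h4⟩ := ht c hc.2
    exact ⟨V ∩ W, Filter.inter_mem h1 h3, fun d hd o ho => ⟨h2 d hd.1 o ho, h4 d hd.2 o ho⟩⟩
  isOpen_sUnion := by
    rintro s hs c ⟨t, ht, hc⟩
    obtain ⟨V, h1, h2⟩ := hs t ht c hc
    exact ⟨V, h1, fun d hd o ho => ⟨t, ht, h2 d hd o ho⟩⟩

theorem open_iff (U : Set (Dup C)) : IsOpen U ↔
    ∀ c : C, (c, none) ∈ U → ∃ V ∈ nhds c, ∀ d ∈ V, ∀ o, (d = c → o = none) → (d, o) ∈ U := Iff.rfl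

theorem cfst : Continuous fun p : Dup C => p.1 :=
  continuous_def.2 fun s hs c hc => ⟨s, hs.mem_nhds hc, fun _ hd _ _ => hd⟩

theorem cinl : Continuous fun c : C => (show Dup C from (c, none)) := by
  refine continuous_def.2 fun s hs => isOpen_iff_mem_nhds.2 fun c hc => ?_
  obtain ⟨V, h1, h2⟩ := hs c hc
  exact Filter.mem_of_superset h1 fun d hd => h2 d hd none fun _ => rfl

theorem open_pt (d : C) (m : ℕ) : IsOpen ({(d, some m)} : Set (Dup C)) := by
  intro c hc
  exact absurd (congrArg Prod.snd hc) (by simp)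

variable [T2Space C]

theorem open_col (d : C) (P : Option ℕ → Prop) (h : P none) :
    IsOpen {p : Dup C | p.1 = d → P p.2} := by
  intro c _
  by_cases hc : c = d
  · refine ⟨Set.univ, Filter.univ_mem, fun e _ o ho he => ?_⟩
    rw [show o = none from ho (he.trans hc.symm)]
    exact h
  · exact ⟨{d}ᶜ, compl_singleton_mem_nhds hc, fun e he o _ h' => absurd h' he⟩

theorem sep (d : C) (m : ℕ) (o : Option ℕ) (h : o ≠ some m) : ∃ u v : Set (Dup C),
    IsOpen u ∧ IsOpen v ∧ (d, some m) ∈ u ∧ (d, o) ∈ v ∧ Disjoint u v :=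
  ⟨{(d, some m)}, {p : Dup C | p.1 = d → p.2 ≠ some m}, open_pt d m,
    open_col d (fun o => o ≠ some m) (by simp), rfl, fun _ => h,
    Set.disjoint_singleton_left.2 fun h' => h' rfl rfl⟩

instance : T2Space (Dup C) := ⟨by
  rintro ⟨c, o⟩ ⟨d, o'⟩ hne
  by_cases h : c = d
  · subst h
    have h1 : o ≠ o' := fun e => hne (by rw [e])
    rcases o with _ | m
    · rcases o' with _ | m
      · exact absurd rfl h1
      · obtain ⟨u, v, a1, a2, a3, a4, a5⟩ := sep c m none h1
        exact ⟨v, u, a2, a1, a4, a3, a5.symm⟩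
    · exact sep c m o' h1.symm
  · exact separated_by_continuous cfst h⟩

instance [FirstCountableTopology C] : FirstCountableTopology (Dup C) := ⟨by
  rintro ⟨c, _ | m⟩
  · have : nhds (show Dup C from (c, none)) = Filter.comap (fun p : Dup C => p.1) (nhds c) ⊓
        Filter.principal {p : Dup C | p.1 = c → p.2 = none} := by
      apply le_antisymm
      · exact le_inf (cfst.tendsto _).le_comap (Filter.le_principal_iff.2
          ((open_col c (fun o => o = none) rfl).mem_nhds fun _ => rfl))
      · intro U hU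
        obtain ⟨W, h1, h2, h3⟩ := mem_nhds_iff.1 hU
        obtain ⟨V, h4, h5⟩ := h2 c h3
        exact Filter.mem_inf_principal.2 (Filter.mem_comap.2
          ⟨V, h4, fun p hp hp' => h1 (h5 p.1 hp p.2 hp')⟩)
    show (nhds (show Dup C from (c, none))).IsCountablyGenerated
    rw [this]
    infer_instance
  · show (nhds (show Dup C from (c, some m))).IsCountablyGenerated
    rw [(isOpen_singleton_iff_nhds_eq_pure _).1 (open_pt c m)]
    exact Filter.isCountablyGenerated_pure _⟩

variable [CompactSpace C]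

omit [T2Space C] in
theorem cofin (U : Set (Dup C)) (hU : IsOpen U) (h : ∀ c : C, (c, none) ∈ U) :
    ∃ F : Finset C, ∀ d, d ∉ F → ∀ o, (d, o) ∈ U := by
  choose V h1 h2 using fun c => hU c (h c)
  obtain ⟨t, -, ht⟩ := isCompact_univ.elim_nhds_subcover V fun c _ => h1 c
  refine ⟨t, fun d hd o => ?_⟩
  obtain ⟨c, hc, hd'⟩ := Set.mem_iUnion₂.1 (ht (Set.mem_univ d))
  exact h2 c d hd' o fun e => absurd (e ▸ hc) hd

def LL (φ : C → ℕ) (F : Finset C) : Set (Dup C) :=
  {p | p.2 = none ∨ (p.1 ∉ F ∧ p.2 = some (φ p.1))}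

omit [T2Space C] in
theorem K_compact : IsCompact {p : Dup C | p.2 = none} := by
  have h : {p : Dup C | p.2 = none} = Set.range fun c : C => (show Dup C from (c, none)) := by
    ext ⟨c, o⟩
    constructor
    · intro h
      exact ⟨c, Prod.ext rfl (Eq.symm h)⟩
    · rintro ⟨d, h⟩
      exact (congrArg Prod.snd h).symm
  rw [h]
  exact isCompact_range cinl

omit [T2Space C] in
theorem LL_compact (φ : C → ℕ) (F : Finset C) : IsCompact (LL φ F) := by
  classical
  refine isCompact_of_finite_subcover fun {ι} U hU hc => ?_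
  obtain ⟨t, ht⟩ := K_compact.elim_finite_subcover U hU fun p hp => hc (Or.inl hp)
  obtain ⟨G, hG⟩ := cofin (⋃ i ∈ t, U i) (isOpen_biUnion fun i _ => hU i) fun c => ht rfl
  have hf : (LL φ F ∩ (fun d : C => (show Dup C from (d, some (φ d)))) '' (G : Set C)).Finite :=
    (G.finite_toSet.image _).inter_of_right _
  obtain ⟨t', ht'⟩ := hf.isCompact.elim_finite_subcover U hU fun p hp => hc hp.1
  refine ⟨t ∪ t', fun p hp => ?_⟩
  rw [Finset.set_biUnion_union]
  rcases hp with hp | hp
  · exact Or.inl (ht hp)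
  · by_cases hg : p.1 ∈ G
    · exact Or.inr (ht' ⟨Or.inr hp, p.1, hg, Prod.ext rfl hp.2.symm⟩)
    · exact Or.inl (hG p.1 hg p.2)

omit [CompactSpace C] in
theorem col_bd (M : Set (Dup C)) (hM : IsCompact M) (d : C) :
    ∃ n, ∀ m, (d, some m) ∈ M → m < n := by
  obtain ⟨n, hn⟩ := hM.elim_directed_cover
    (fun n : ℕ => {p : Dup C | p.1 = d → ∀ m, p.2 = some m → m < n})
    (fun n => open_col d (fun o => ∀ m, o = some m → m < n) (by simp)) (by
      rintro ⟨c, _ | k⟩ _
      · exact Set.mem_iUnion.2 ⟨0, fun _ m h => by simp at h⟩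
      · exact Set.mem_iUnion.2 ⟨k + 1, fun _ m h => by
          have : k = m := Option.some.inj h
          omega⟩)
    (Monotone.directed_le fun a b hab p hp h m hm => lt_of_lt_of_le (hp h m hm) hab)
  exact ⟨n, fun m hm => hn hm rfl m rfl⟩

omit [CompactSpace C] in
theorem exphi (hC : Cardinal.mk C = Cardinal.continuum) :
    ∃ φ : Finset C → C → ℕ, ∀ M : Set (Dup C), IsCompact M → {F | LL (φ F) F ⊆ M}.Finite := by
  classical
  have : Infinite C :=
    Cardinal.infinite_iff.2 (by rw [hC]; exact Cardinal.aleph0_le_continuum)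
  have h1 : Cardinal.mk ((ℕ → Finset C) × C) ≤ Cardinal.mk C := by
    simp [Cardinal.mk_finset_of_infinite, hC]
  obtain ⟨j⟩ := (Cardinal.le_def _ _).1 h1
  refine ⟨fun F d => Function.invFun (Function.invFun j d).1 F, fun M hM => ?_⟩
  by_contra hinf
  let s : ℕ → Finset C := fun n => (Set.Infinite.natEmbedding _ hinf n).1
  have hs : Function.Injective s :=
    Subtype.val_injective.comp (Set.Infinite.natEmbedding _ hinf).injective
  obtain ⟨t, ht⟩ : ∃ t, ∀ n, j (s, t) ∉ s n := by
    by_contra hc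
    push Not at hc
    have h2 : (⋃ n, (s n : Set C)).Countable := Set.countable_iUnion fun n => (s n).countable_toSet
    have h3 : (Set.univ : Set C).Countable :=
      (h2.preimage_of_injOn (f := fun t => j (s, t)) fun a _ b _ h =>
        congrArg Prod.snd (j.injective h)).mono fun t _ => Set.mem_preimage.2 (Set.mem_iUnion.2 (hc t))
    have h4 := Cardinal.mk_le_aleph0_iff.2 (Set.countable_univ_iff.1 h3)
    rw [hC] at h4
    exact absurd h4 (not_le.2 Cardinal.aleph0_lt_continuum)
  obtain ⟨n, hn⟩ := col_bd M hM (j (s, t))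
  refine lt_irrefl n (hn n ((Set.Infinite.natEmbedding _ hinf n).2 (Or.inr ⟨ht n, ?_⟩)))
  show some n = some (Function.invFun (Function.invFun j (j (s, t))).1 (s n))
  rw [Function.leftInverse_invFun j.injective, Function.leftInverse_invFun hs]

theorem crit_dup (hC : Cardinal.mk C = Cardinal.continuum) : Crit (Dup C) := by
  have : Infinite C :=
    Cardinal.infinite_iff.2 (by rw [hC]; exact Cardinal.aleph0_le_continuum)
  obtain ⟨c0⟩ : Nonempty C := inferInstance
  obtain ⟨φ, hφ⟩ := exphi hC
  refine ⟨{p | p.2 = none}, Finset C, fun F => LL (φ F) F, K_compact, ⟨(c0, none), rfl⟩,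
    fun F => ⟨LL_compact _ _, ⟨(c0, none), Or.inl rfl⟩, fun hF => ?_⟩, fun U hU hKU => ?_, hφ⟩
  · obtain ⟨d, hd⟩ := Infinite.exists_notMem_finset F
    have := hF (a := (d, some (φ F d))) (Or.inr ⟨hd, rfl⟩)
    exact Option.some_ne_none _ this
  · obtain ⟨F, hF⟩ := cofin U hU fun c => hKU rfl
    refine ⟨F, ?_⟩
    rintro p (hp | hp)
    · exact hKU hp
    · exact hF p.1 hp.1 p.2

end

/-- The duplicate of a compact metrizable space `C` is a first-countable Hausdorff space; the two
topologies coincide if and only if `C` is countable. -/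
theorem dup_iff (C : Type) [TopologicalSpace C] [CompactSpace C]
    [TopologicalSpace.MetrizableSpace C] : Coincide (Dup C) ↔ Countable C := by
  constructor
  · intro h
    by_contra hc
    let _ := TopologicalSpace.metrizableSpaceMetric C
    let _ : MeasurableSpace C := borel C
    have : BorelSpace C := ⟨rfl⟩
    have hC : Cardinal.mk C = Cardinal.continuum := by
      rw [Cardinal.mk_congr (PolishSpace.measurableEquivNatBoolOfNotCountable hc).toEquiv]
      simp
    exact not_coincide (crit_dup hC) h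
  · intro h
    have : Countable (Dup C) := inferInstanceAs (Countable (C × Option ℕ))
    exact coincide_of_char fun K hK => char_of_countable hK

end Pool.Agent.KS6_17.VS
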