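import Mathlib

set_option autoImplicit false

/-!
# The upper Vietoris and the Scott topology on the compact saturated sets
-/

open Set Filter Topology

namespace Pool.Agent.KS6_17.VS

section defs

variable (X : Type) [TopologicalSpace X]

/-- `𝖪(X)`: the nonempty compact saturated subsets of `X`. -/
def KK : Type :=
  {K : Set X // K.Nonempty ∧ IsCompact K ∧ ⋂₀ {U : Set X | IsOpen U ∧ K ⊆ U} ⊆ K}

/-- `X` is well-filtered. -/
def WellFiltered : Prop :=
  ∀ 𝒦 : Set (KK X), 𝒦.Nonempty → DirectedOn (fun A B : KK X => B.1 ⊆ A.1) 𝒦 →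
    ∀ U : Set X, IsOpen U → (⋂ K ∈ 𝒦, K.1) ⊆ U → ∃ K ∈ 𝒦, K.1 ⊆ U

/-- `𝒮` is open in the upper Vietoris topology, which is generated by the sets
`□U = {K | K ⊆ U}`, `U` open. -/
def VietorisOpen (𝒮 : Set (KK X)) : Prop :=
  IsOpen[TopologicalSpace.generateFrom
    {𝒱 : Set (KK X) | ∃ U : Set X, IsOpen U ∧ 𝒱 = {K : KK X | K.1 ⊆ U}}] 𝒮

/-- `𝒮` is Scott open in `𝖪(X)` ordered by reverse inclusion: it is an upper set, and if a directed
family has a supremum in `𝒮` then some member of the family is in `𝒮`. -/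
def ScottOpen (𝒮 : Set (KK X)) : Prop :=
  (∀ K ∈ 𝒮, ∀ L : KK X, L.1 ⊆ K.1 → L ∈ 𝒮) ∧
  ∀ 𝒟 : Set (KK X), 𝒟.Nonempty → DirectedOn (fun A B : KK X => B.1 ⊆ A.1) 𝒟 →
    ∀ L : KK X, (∀ K ∈ 𝒟, L.1 ⊆ K.1) → (∀ M : KK X, (∀ K ∈ 𝒟, M.1 ⊆ K.1) → M.1 ⊆ L.1) →
      L ∈ 𝒮 → ∃ K ∈ 𝒟, K ∈ 𝒮

/-- The upper Vietoris topology and the Scott topology on `𝖪(X)` are equal. -/
def Coincide : Prop := ∀ 𝒮 : Set (KK X), VietorisOpen X 𝒮 ↔ ScottOpen X 𝒮

/-- a criterion for the two topologies to be different -/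
def Crit : Prop := ∃ (K : Set X) (ι : Type) (L : ι → Set X), IsCompact K ∧ K.Nonempty ∧
  (∀ i, IsCompact (L i) ∧ (L i).Nonempty ∧ ¬ L i ⊆ K) ∧
  (∀ U, IsOpen U → K ⊆ U → ∃ i, L i ⊆ U) ∧ ∀ M, IsCompact M → {i | L i ⊆ M}.Finite

end defs

variable {X : Type} [TopologicalSpace X]

theorem vietorisOpen_iff (𝒮 : Set (KK X)) : VietorisOpen X 𝒮 ↔
    ∀ K ∈ 𝒮, ∃ U : Set X, IsOpen U ∧ K.1 ⊆ U ∧ ∀ L : KK X, L.1 ⊆ U → L ∈ 𝒮 := by
  constructor
  · intro h0
    have h : TopologicalSpace.GenerateOpen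
      {𝒱 : Set (KK X) | ∃ U : Set X, IsOpen U ∧ 𝒱 = {K : KK X | K.1 ⊆ U}} 𝒮 := h0
    clear h0
    induction h with
    | basic s hs =>
      obtain ⟨U, hU, rfl⟩ := hs
      exact fun K hK => ⟨U, hU, hK, fun L h => h⟩
    | univ => exact fun K _ => ⟨Set.univ, isOpen_univ, Set.subset_univ _, fun _ _ => trivial⟩
    | inter s t _ _ ih1 ih2 =>
      intro K hK
      obtain ⟨U, a1, a2, a3⟩ := ih1 K hK.1
      obtain ⟨V, b1, b2, b3⟩ := ih2 K hK.2
      exact ⟨U ∩ V, a1.inter b1, Set.subset_inter a2 b2, fun K h =>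
        ⟨a3 K (h.trans Set.inter_subset_left), b3 K (h.trans Set.inter_subset_right)⟩⟩
    | sUnion S _ ih =>
      rintro K ⟨t, ht, hK⟩
      obtain ⟨U, a1, a2, a3⟩ := ih t ht K hK
      exact ⟨U, a1, a2, fun K h => ⟨t, ht, a3 K h⟩⟩
  · intro h
    unfold VietorisOpen
    have h1 : 𝒮 = ⋃₀ {𝒱 : Set (KK X) | (∃ U : Set X, IsOpen U ∧ 𝒱 = {K : KK X | K.1 ⊆ U}) ∧
        𝒱 ⊆ 𝒮} := by
      ext K
      constructor
      · intro hK
        obtain ⟨U, hU, hKU, hUS⟩ := h K hK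
        exact ⟨{K : KK X | K.1 ⊆ U}, ⟨⟨U, hU, rfl⟩, fun L hL => hUS L hL⟩, hKU⟩
      · rintro ⟨𝒱, ⟨-, h2⟩, h3⟩
        exact h2 h3
    rw [h1]
    refine @isOpen_sUnion _ (TopologicalSpace.generateFrom _) _ fun 𝒱 h𝒱 => ?_
    exact TopologicalSpace.isOpen_generateFrom_of_mem h𝒱.1

theorem sat [T1Space X] (K : Set X) : ⋂₀ {U : Set X | IsOpen U ∧ K ⊆ U} ⊆ K := by
  intro x hx
  by_contra h
  exact hx {x}ᶜ ⟨isOpen_compl_singleton, fun y hy e => h (e ▸ hy)⟩ rfl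

theorem wellFiltered [T2Space X] : WellFiltered X := by
  intro 𝒦 h1 h3 U hU h4
  have := h1.to_subtype
  obtain ⟨K, hK⟩ := exists_subset_nhds_of_isCompact' (V := fun K : 𝒦 => K.1.1)
    (directedOn_iff_directed.1 h3) (fun K => K.1.2.2.1) (fun K => K.1.2.2.1.isClosed)
    (U := U) (fun x hx => hU.mem_nhds (h4 (by simpa using hx)))
  exact ⟨K.1, K.2, hK⟩

theorem not_coincide [T2Space X] (h : Crit X) : ¬ Coincide X := by
  obtain ⟨K, ι, L, hK, hne, hL, hU, hM⟩ := h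
  intro H
  have hS : ScottOpen X {K' : KK X | ∀ i, ¬ L i ⊆ K'.1} := by
    refine ⟨fun K hK L' hL' i h => hK i (h.trans hL'), ?_⟩
    intro 𝒟 h1 h2 L' _ h4 h5
    by_contra hc
    have hc' : ∀ K ∈ 𝒟, ∃ i, L i ⊆ K.1 := by
      intro K hK
      by_contra h6
      push Not at h6
      exact hc ⟨K, hK, h6⟩
    have h7 : ∀ i, ∃ K ∈ 𝒟, ¬ L i ⊆ K.1 := by
      intro i
      by_contra h6
      push Not at h6
      exact h5 i (h4 ⟨L i, (hL i).2.1, (hL i).1, sat _⟩ h6)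
    choose g hg1 hg2 using h7
    obtain ⟨K0, hK0⟩ := h1
    have h8 : ∀ T : Set ι, T.Finite → ∃ K ∈ 𝒟, K.1 ⊆ K0.1 ∧ ∀ F ∈ T, K.1 ⊆ (g F).1 := by
      intro T hT
      induction T, hT using Set.Finite.induction_on with
      | empty => exact ⟨K0, hK0, subset_rfl, fun _ h => h.elim⟩
      | @insert a s _ _ ih =>
        obtain ⟨K, a1, a2, a3⟩ := ih
        obtain ⟨K', b1, b2, b3⟩ := h2 K a1 (g a) (hg1 a)
        refine ⟨K', b1, b2.trans a2, ?_⟩
        rintro F (rfl | hF)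
        · exact b3
        · exact b2.trans (a3 F hF)
    obtain ⟨K, a1, a2, a3⟩ := h8 _ (hM K0.1 K0.2.2.1)
    obtain ⟨F, hF⟩ := hc' K a1
    exact hg2 F (hF.trans (a3 F (hF.trans a2)))
  obtain ⟨U, h1, h2, h3⟩ := (vietorisOpen_iff _).1 ((H _).2 hS) ⟨K, hne, hK, sat _⟩
    fun i => (hL i).2.2
  obtain ⟨i, hi⟩ := hU U h1 h2
  exact h3 ⟨L i, (hL i).2.1, (hL i).1, sat _⟩ hi i subset_rfl

theorem Crit.map {Y : Type} [TopologicalSpace Y] {f : X → Y} (hf : IsClosedEmbedding f)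
    (h : Crit X) : Crit Y := by
  obtain ⟨K, ι, L, hK, hne, hL, hU, hM⟩ := h
  refine ⟨f '' K, ι, fun i => f '' L i, hK.image hf.continuous, hne.image f, fun i =>
    ⟨(hL i).1.image hf.continuous, (hL i).2.1.image f, fun h => (hL i).2.2 ?_⟩, ?_, ?_⟩
  · exact (Set.image_subset_image_iff hf.injective).1 h
  · intro U hU' hKU
    obtain ⟨i, hi⟩ := hU (f ⁻¹' U) (hU'.preimage hf.continuous) (Set.image_subset_iff.1 hKU)
    exact ⟨i, Set.image_subset_iff.2 hi⟩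
  · intro M hM'
    refine (hM (f ⁻¹' M) (hf.isCompact_preimage hM')).subset fun i hi => ?_
    exact Set.image_subset_iff.1 hi

theorem inter_subset [T2Space X] {𝒟 : Set (KK X)} (h1 : 𝒟.Nonempty) {L : KK X}
    (h4 : ∀ M : KK X, (∀ K ∈ 𝒟, M.1 ⊆ K.1) → M.1 ⊆ L.1) : (⋂ K ∈ 𝒟, K.1) ⊆ L.1 := by
  by_cases hne : (⋂ K ∈ 𝒟, K.1).Nonempty
  · obtain ⟨K0, hK0⟩ := h1
    have hc : IsCompact (⋂ K ∈ 𝒟, K.1) :=
      K0.2.2.1.of_isClosed_subset (isClosed_biInter fun K _ => K.2.2.1.isClosed)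
        (Set.biInter_subset_of_mem hK0)
    exact h4 ⟨_, hne, hc, sat _⟩ fun K hK => Set.biInter_subset_of_mem hK
  · rw [Set.not_nonempty_iff_eq_empty.1 hne]
    exact Set.empty_subset _

/-! ### Coincidence if the compact sets have countable neighbourhood bases -/

/-- `K` has a countable base of neighbourhoods. -/
def CountableChar (K : Set X) : Prop := ∃ W : ℕ → Set X, (∀ n, IsOpen (W n) ∧ K ⊆ W n) ∧
  ∀ U, IsOpen U → K ⊆ U → ∃ n, W n ⊆ U

theorem coincide_of_char [T2Space X] (h : ∀ K : Set X, IsCompact K → CountableChar K) :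
    Coincide X := by
  classical
  intro 𝒮
  rw [vietorisOpen_iff]
  constructor
  · intro hS
    refine ⟨fun K hK L hL => ?_, fun 𝒟 h1 h2 L _ h4 h5 => ?_⟩
    · obtain ⟨U, -, h2, h3⟩ := hS K hK
      exact h3 L (hL.trans h2)
    · obtain ⟨U, hU, h6, h7⟩ := hS L h5
      obtain ⟨K, hK, hKU⟩ := wellFiltered 𝒟 h1 h2 U hU ((inter_subset h1 h4).trans h6)
      exact ⟨K, hK, h7 K hKU⟩
  · rintro ⟨hup, hdir⟩ K hK
    obtain ⟨W, hW, hWb⟩ := h K.1 K.2.2.1
    by_contra hcon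
    push Not at hcon
    have hV : ∀ n, IsOpen (⋂ i ∈ Finset.range (n + 1), W i) ∧ K.1 ⊆ ⋂ i ∈ Finset.range (n + 1), W i :=
      fun n => ⟨isOpen_biInter_finset fun i _ => (hW i).1, Set.subset_iInter₂ fun i _ => (hW i).2⟩
    choose L hLV hLS using fun n => hcon _ (hV n).1 (hV n).2
    let D : ℕ → Set X := fun n => K.1 ∪ ⋃ m ≥ n, (L m).1
    have hD : ∀ n, IsCompact (D n) := by
      intro n
      refine isCompact_of_finite_subcover fun {ι} U hU hc => ?_
      obtain ⟨t, ht⟩ := K.2.2.1.elim_finite_subcover U hU (Set.subset_union_left.trans hc)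
      obtain ⟨m0, hm0⟩ := hWb _ (isOpen_biUnion fun i (_ : i ∈ t) => hU i) ht
      have hfin : IsCompact (⋃ m ∈ Finset.Ico n (max n m0), (L m).1) :=
        (Finset.Ico n (max n m0)).isCompact_biUnion fun m _ => (L m).2.2.1
      obtain ⟨t', ht'⟩ := hfin.elim_finite_subcover U hU (by
        intro x hx
        simp only [Set.mem_iUnion, Finset.mem_Ico] at hx
        obtain ⟨m, ⟨hm, -⟩, hx⟩ := hx
        exact hc (Or.inr (Set.mem_iUnion₂.2 ⟨m, hm, hx⟩)))
      refine ⟨t ∪ t', ?_⟩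
      rw [Finset.set_biUnion_union]
      rintro x (hx | hx)
      · exact Or.inl (ht hx)
      · obtain ⟨m, hm, hx⟩ := Set.mem_iUnion₂.1 hx
        by_cases hm' : m < max n m0
        · exact Or.inr (ht' (Set.mem_iUnion₂.2 ⟨m, Finset.mem_Ico.2 ⟨hm, hm'⟩, hx⟩))
        · left
          refine hm0 (Set.mem_iInter₂.1 (hLV m hx) m0 ?_)
          rw [Finset.mem_range]
          have := le_max_right n m0
          omega
    let DD : ℕ → KK X := fun n => ⟨D n, K.2.1.mono Set.subset_union_left, hD n, sat _⟩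
    have hanti : Antitone D := fun a b hab => Set.union_subset_union_right _
      (Set.iUnion₂_subset fun m hm => Set.subset_iUnion₂_of_subset m (hab.trans hm) subset_rfl)
    obtain ⟨K', ⟨n, rfl⟩, hK'⟩ := hdir (Set.range DD) (Set.range_nonempty _) (by
      rintro _ ⟨a, rfl⟩ _ ⟨b, rfl⟩
      exact ⟨DD (max a b), ⟨_, rfl⟩, hanti (le_max_left a b), hanti (le_max_right a b)⟩) K (by
      rintro _ ⟨n, rfl⟩
      exact Set.subset_union_left) (by
      intro M hM x hx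
      by_contra hxK
      obtain ⟨n, hn⟩ := hWb {x}ᶜ isOpen_compl_singleton (fun y hy e => hxK (e ▸ hy))
      rcases hM (DD n) ⟨n, rfl⟩ hx with h | h
      · exact hxK h
      · obtain ⟨m, hm, h⟩ := Set.mem_iUnion₂.1 h
        exact hn (Set.mem_iInter₂.1 (hLV m h) n (Finset.mem_range.2 (by
          have : n ≤ m := hm
          omega))) rfl) hK
    exact hLS n (hup _ hK' (L n) fun x hx => Or.inr (Set.mem_iUnion₂.2 ⟨n, le_rfl, hx⟩))

/-- In a countable first-countable space all sets have countable neighbourhood bases, as far as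
they are compact. -/
theorem char_of_countable [Countable X] [FirstCountableTopology X] {K : Set X}
    (hK : IsCompact K) : CountableChar K := by
  classical
  choose B hB using fun x : X => (𝓝 x).exists_antitone_basis
  let O : Finset (X × ℕ) → Set X := fun S => ⋃ p ∈ S, interior (B p.1 p.2)
  have hO : ∀ S, IsOpen (O S) := fun S => isOpen_biUnion fun p _ => isOpen_interior
  obtain ⟨e, he⟩ := exists_surjective_nat (Finset (X × ℕ))
  have huniv : ∀ U, IsOpen U → K ⊆ U → ∃ S, O S ⊆ U ∧ K ⊆ O S := by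
    intro U hU hKU
    have h1 : ∀ x : X, ∃ n, x ∈ K → B x n ⊆ U := by
      intro x
      by_cases hx : x ∈ K
      · obtain ⟨n, hn⟩ := (hB x).mem_iff.1 (hU.mem_nhds (hKU hx))
        exact ⟨n, fun _ => hn⟩
      · exact ⟨0, fun h => absurd h hx⟩
    choose n hn using h1
    obtain ⟨t, ht1, ht2⟩ := hK.elim_nhds_subcover (fun x => interior (B x (n x)))
      fun x _ => interior_mem_nhds.2 ((hB x).mem (n x))
    refine ⟨t.image fun x => (x, n x), ?_, ?_⟩
    · refine Set.iUnion₂_subset fun p hp => ?_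
      obtain ⟨x, hx, rfl⟩ := Finset.mem_image.1 hp
      exact interior_subset.trans (hn x (ht1 x hx))
    · intro y hy
      obtain ⟨x, hx, hyx⟩ := Set.mem_iUnion₂.1 (ht2 hy)
      exact Set.mem_iUnion₂.2 ⟨(x, n x), Finset.mem_image_of_mem _ hx, hyx⟩
  refine ⟨fun k => if K ⊆ O (e k) then O (e k) else Set.univ, fun k => ?_, fun U hU hKU => ?_⟩
  · beta_reduce
    split_ifs with h
    · exact ⟨hO _, h⟩
    · exact ⟨isOpen_univ, Set.subset_univ _⟩
  · obtain ⟨S, hS1, hS2⟩ := huniv U hU hKU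
    obtain ⟨k, rfl⟩ := he S
    refine ⟨k, ?_⟩
    beta_reduce
    rw [if_pos hS2]
    exact hS1

/-! ### Closed subspaces -/

theorem scott_of_vietoris [T2Space X] {𝒮 : Set (KK X)} (hS : VietorisOpen X 𝒮) :
    ScottOpen X 𝒮 := by
  rw [vietorisOpen_iff] at hS
  refine ⟨fun K hK L hL => ?_, fun 𝒟 h1 h2 L _ h4 h5 => ?_⟩
  · obtain ⟨U, -, h2, h3⟩ := hS K hK
    exact h3 L (hL.trans h2)
  · obtain ⟨U, hU, h6, h7⟩ := hS L h5
    obtain ⟨K, hK, hKU⟩ := wellFiltered 𝒟 h1 h2 U hU ((inter_subset h1 h4).trans h6)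
    exact ⟨K, hK, h7 K hKU⟩

/-- If the two topologies coincide for a Hausdorff space, they coincide for its closed
subspaces. -/
theorem coincide_closed {Y : Type} [TopologicalSpace Y] [T2Space Y] {f : X → Y}
    (hf : IsClosedEmbedding f) (h : Coincide Y) : Coincide X := by
  have : T2Space X := hf.isEmbedding.t2Space
  intro 𝒮
  refine ⟨scott_of_vietoris, fun hS => ?_⟩
  let pre : ∀ K : KK Y, (f ⁻¹' K.1).Nonempty → KK X := fun K hne =>
    ⟨f ⁻¹' K.1, hne, hf.isCompact_preimage K.2.2.1, sat _⟩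
  let im : KK X → KK Y := fun A => ⟨f '' A.1, A.2.1.image f, A.2.2.1.image hf.continuous, sat _⟩
  have hpi : ∀ (A : KK X) (hne : (f ⁻¹' (im A).1).Nonempty), pre (im A) hne = A := fun A hne =>
    Subtype.ext (Set.preimage_image_eq _ hf.injective)
  have hS' : ScottOpen Y {K | ∀ hne : (f ⁻¹' K.1).Nonempty, pre K hne ∈ 𝒮} := by
    refine ⟨fun K hK L hL hne => ?_, fun 𝒟 h1 h2 L h3 h4 h5 => ?_⟩
    · exact hS.1 _ (hK (hne.mono (Set.preimage_mono hL))) _ (Set.preimage_mono hL)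
    · by_contra hcon
      have hcon' : ∀ K ∈ 𝒟, ∃ hne : (f ⁻¹' K.1).Nonempty, pre K hne ∉ 𝒮 := by
        intro K hK
        by_contra h6
        push Not at h6
        exact hcon ⟨K, hK, h6⟩
      have hL : (f ⁻¹' L.1).Nonempty := by
        by_contra hL
        rw [Set.not_nonempty_iff_eq_empty] at hL
        obtain ⟨K, hK, hKU⟩ := wellFiltered 𝒟 h1 h2 (Set.range f)ᶜ
          hf.isClosed_range.isOpen_compl ((inter_subset h1 h4).trans (by
            rintro y hy ⟨x, rfl⟩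
            exact Set.eq_empty_iff_forall_notMem.1 hL x hy))
        obtain ⟨⟨x, hx⟩, -⟩ := hcon' K hK
        exact hKU hx ⟨x, rfl⟩
      obtain ⟨K0, hK0⟩ := h1
      obtain ⟨A, ⟨K, hK, hA⟩, hAS⟩ := hS.2 {A | ∃ K ∈ 𝒟, A.1 = f ⁻¹' K.1}
        ⟨pre K0 (hcon' K0 hK0).1, K0, hK0, rfl⟩ (by
          rintro A ⟨K, hK, hA⟩ B ⟨K', hK', hB⟩
          obtain ⟨K'', c1, c2, c3⟩ := h2 K hK K' hK'
          refine ⟨pre K'' (hcon' K'' c1).1, ⟨K'', c1, rfl⟩, ?_, ?_⟩
          · exact (Set.preimage_mono c2).trans hA.ge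
          · exact (Set.preimage_mono c3).trans hB.ge)
        (pre L hL) (by
          rintro A ⟨K, hK, hA⟩
          rw [hA]
          exact Set.preimage_mono (h3 K hK)) (by
          intro M hM
          refine Set.image_subset_iff.1 (h4 (im M) fun K hK => ?_)
          exact Set.image_subset_iff.2 (hM (pre K (hcon' K hK).1) ⟨K, hK, rfl⟩)) (h5 hL)
      obtain ⟨hne, hK'⟩ := hcon' K hK
      exact hK' ((Subtype.ext hA : A = pre K hne) ▸ hAS)
  rw [vietorisOpen_iff]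
  intro A hA
  obtain ⟨U, hU, h1, h2⟩ := (vietorisOpen_iff _).1 ((h _).2 hS') (im A) fun hne => by
    rw [hpi A hne]
    exact hA
  refine ⟨f ⁻¹' U, hU.preimage hf.continuous, Set.image_subset_iff.1 h1, fun B hB => ?_⟩
  have hne : (f ⁻¹' (im B).1).Nonempty := B.2.1.mono fun x hx => Set.mem_image_of_mem f hx
  have h3 := h2 (im B) (Set.image_subset_iff.2 hB) hne
  rwa [hpi B hne] at h3

end Pool.Agent.KS6_17.VS
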