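import Pool.Agent.KS6_17.VS.Dup

set_option autoImplicit false

open Set Filter Topology

namespace Pool.Agent.KS6_17.VS

/-- the Cantor set -/
abbrev Ca : Type := ℕ → Bool

/-- the nodes of the binary tree: finite sequences -/
abbrev Node : Type := Σ j : ℕ, (Fin j → Bool)

/-- the restriction of `c` to its first `j` members -/
def res (c : Ca) (j : ℕ) : Node := ⟨j, fun i => c i⟩

theorem res_eq {c d : Ca} {j k : ℕ} : res c j = res d k ↔ j = k ∧ ∀ i < j, c i = d i := by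
  constructor
  · intro h
    obtain rfl : j = k := congrArg Sigma.fst h
    refine ⟨rfl, fun i hi => ?_⟩
    have h1 := eq_of_heq (Sigma.mk.inj h).2
    exact congrFun h1 ⟨i, hi⟩
  · rintro ⟨rfl, h⟩
    unfold res
    congr 1
    funext i
    exact h i i.2

theorem exists_res (s : Node) : ∃ d, s = res d s.1 := by
  obtain ⟨j, s⟩ := s
  refine ⟨fun i => if h : i < j then s ⟨i, h⟩ else false, ?_⟩
  unfold res
  congr 1
  funext i
  simp

/-- The points of the space: `base c` and `pt c m` with `c` in the Cantor set and `m ∈ ℕ`, and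
`node s m`, where `s` is a node of the binary tree and `m ∈ ℕ`. -/
inductive TreeDup : Type
  | base (c : Ca)
  | pt (c : Ca) (m : ℕ)
  | node (s : Node) (m : ℕ)

open TreeDup

/-- A basic neighbourhood of `(c, m)`: this point and the `(s, m)` where `s` is one of the
restrictions of `c` of length at least `k`. -/
def B (k : ℕ) (c : Ca) (m : ℕ) : Set TreeDup :=
  {p | p = pt c m ∨ ∃ j, k ≤ j ∧ p = node (res c j) m}

/-- A basic neighbourhood of `(c, none)`: all `(d, none)`, `(d, m)`, `(s, m)` where `d` and `s`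
extend the restriction of `c` to its first `k` members, but without the `(c, m)` and the `(s, m)`
where `s` is a restriction of `c`. -/
def N (k : ℕ) (c : Ca) : Set TreeDup :=
  {p | ∃ d : Ca, (∀ i < k, d i = c i) ∧ (p = base d ∨
    (d ≠ c ∧ ∃ m, p = pt d m) ∨
      ∃ j m, (∃ i < j, d i ≠ c i) ∧ p = node (res d j) m)}

theorem none_mem_N {k : ℕ} {c d : Ca} : base d ∈ N k c ↔ ∀ i < k, d i = c i := by
  constructor
  · rintro ⟨e, h1, h | ⟨-, m, h⟩ | ⟨j, m, -, h⟩⟩
    · obtain rfl := base.inj h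
      exact h1
    · exact absurd h (by simp)
    · exact absurd h (by simp)
  · intro h
    exact ⟨d, h, Or.inl rfl⟩

theorem some_mem_N {k m : ℕ} {c d : Ca} : pt d m ∈ N k c ↔ (∀ i < k, d i = c i) ∧ d ≠ c := by
  constructor
  · rintro ⟨e, h1, h | ⟨h2, m, h⟩ | ⟨j, m, -, h⟩⟩
    · exact absurd h (by simp)
    · obtain ⟨rfl, -⟩ := pt.inj h
      exact ⟨h1, h2⟩
    · exact absurd h (by simp)
  · intro h
    exact ⟨d, h.1, Or.inr (Or.inl ⟨h.2, m, rfl⟩)⟩

theorem node_mem_N {k m j : ℕ} {c d : Ca} :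
    node (res d j) m ∈ N k c ↔ (∀ i < k, d i = c i) ∧ ∃ i < j, d i ≠ c i := by
  constructor
  · rintro ⟨e, h1, h | ⟨-, m, h⟩ | ⟨j', m', ⟨i, hi, hne⟩, h⟩⟩
    · exact absurd h (by simp)
    · exact absurd h (by simp)
    · obtain ⟨rfl, h2⟩ := res_eq.1 (node.inj h).1
      have hk : k ≤ i := by
        by_contra hk
        exact hne (h1 i (by omega))
      exact ⟨fun a ha => (h2 a (by omega)).trans (h1 a ha), i, hi, by rw [h2 i hi]; exact hne⟩
  · intro h
    exact ⟨d, h.1, Or.inr (Or.inr ⟨j, m, h.2, rfl⟩)⟩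

theorem some_mem_B {k m m' : ℕ} {c d : Ca} : pt d m' ∈ B k c m ↔ d = c ∧ m' = m := by
  constructor
  · rintro (h | ⟨j, -, h⟩)
    · exact pt.inj h
    · exact absurd h (by simp)
  · rintro ⟨rfl, rfl⟩
    exact Or.inl rfl

theorem none_mem_B {k m : ℕ} {c d : Ca} : base d ∉ B k c m := by
  rintro (h | ⟨j, -, h⟩)
  · exact absurd h (by simp)
  · exact absurd h (by simp)

theorem node_mem_B {k m m' j : ℕ} {c d : Ca} :
    node (res d j) m' ∈ B k c m ↔ (k ≤ j ∧ ∀ i < j, d i = c i) ∧ m' = m := by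
  constructor
  · rintro (h | ⟨j', hj, h⟩)
    · exact absurd h (by simp)
    · obtain ⟨h1, h2⟩ := node.inj h
      obtain ⟨rfl, h3⟩ := res_eq.1 h1
      exact ⟨⟨hj, h3⟩, h2⟩
  · rintro ⟨⟨h1, h2⟩, rfl⟩
    exact Or.inr ⟨j, h1, by rw [res_eq.2 ⟨rfl, h2⟩]⟩

theorem N_mono {k l : ℕ} (h : k ≤ l) (c : Ca) : N l c ⊆ N k c := by
  rintro p ⟨d, h1, h2⟩
  exact ⟨d, fun i hi => h1 i (by omega), h2⟩

theorem B_mono {k l : ℕ} (h : k ≤ l) (c : Ca) (m : ℕ) : B l c m ⊆ B k c m := by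
  rintro p (h1 | ⟨j, hj, h1⟩)
  · exact Or.inl h1
  · exact Or.inr ⟨j, h.trans hj, h1⟩

/-- The topology: the `(s, m)` are isolated, the `B k c m` are the basic neighbourhoods of `(c, m)`
and the `N k c` those of `(c, none)`. -/
instance : TopologicalSpace TreeDup where
  IsOpen U := (∀ c m, pt c m ∈ U → ∃ k, B k c m ⊆ U) ∧
    ∀ c, base c ∈ U → ∃ k, N k c ⊆ U
  isOpen_univ := ⟨fun _ _ _ => ⟨0, subset_univ _⟩, fun _ _ => ⟨0, subset_univ _⟩⟩
  isOpen_inter := by
    intro s t hs ht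
    refine ⟨fun c m h => ?_, fun c h => ?_⟩
    · obtain ⟨k, hk⟩ := hs.1 c m h.1
      obtain ⟨l, hl⟩ := ht.1 c m h.2
      exact ⟨max k l, subset_inter ((B_mono (le_max_left k l) c m).trans hk)
        ((B_mono (le_max_right k l) c m).trans hl)⟩
    · obtain ⟨k, hk⟩ := hs.2 c h.1
      obtain ⟨l, hl⟩ := ht.2 c h.2
      exact ⟨max k l, subset_inter ((N_mono (le_max_left k l) c).trans hk)
        ((N_mono (le_max_right k l) c).trans hl)⟩
  isOpen_sUnion := by
    intro S hS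
    refine ⟨?_, ?_⟩
    · rintro c m ⟨s, hs, h⟩
      obtain ⟨k, hk⟩ := (hS s hs).1 c m h
      exact ⟨k, hk.trans (subset_sUnion_of_mem hs)⟩
    · rintro c ⟨s, hs, h⟩
      obtain ⟨k, hk⟩ := (hS s hs).2 c h
      exact ⟨k, hk.trans (subset_sUnion_of_mem hs)⟩

theorem tree_open (U : Set TreeDup) : IsOpen U ↔
    (∀ c m, pt c m ∈ U → ∃ k, B k c m ⊆ U) ∧
      ∀ c, base c ∈ U → ∃ k, N k c ⊆ U := Iff.rfl

theorem isOpen_node (s : Node) (m : ℕ) : IsOpen ({node s m} : Set TreeDup) :=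
  ⟨fun c m h => absurd h (by simp), fun c h => absurd h (by simp)⟩

theorem isOpen_B (k : ℕ) (c : Ca) (m : ℕ) : IsOpen (B k c m) := by
  refine ⟨fun d m' h => ?_, fun d h => absurd h none_mem_B⟩
  obtain ⟨rfl, rfl⟩ := some_mem_B.1 h
  exact ⟨k, subset_rfl⟩

theorem ex_ne {c d : Ca} (h : d ≠ c) : ∃ i, d i ≠ c i := Function.ne_iff.1 h

theorem isOpen_N (k : ℕ) (c : Ca) : IsOpen (N k c) := by
  refine ⟨fun d m h => ?_, fun d h => ?_⟩
  · obtain ⟨h1, h2⟩ := some_mem_N.1 h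
    obtain ⟨i0, hi0⟩ := ex_ne h2
    refine ⟨i0 + 1, ?_⟩
    rintro p (rfl | ⟨j, hj, rfl⟩)
    · exact h
    · exact node_mem_N.2 ⟨h1, i0, by omega, hi0⟩
  · have h1 := none_mem_N.1 h
    by_cases hdc : d = c
    · subst hdc
      exact ⟨k, subset_rfl⟩
    · obtain ⟨i0, hi0⟩ := ex_ne hdc
      have hk : k ≤ i0 := by
        by_contra hk
        exact hi0 (h1 i0 (by omega))
      refine ⟨i0 + 1, ?_⟩
      rintro p ⟨e, he, rfl | ⟨hne, m, rfl⟩ | ⟨j, m, ⟨i, hi, hne⟩, rfl⟩⟩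
      · exact none_mem_N.2 fun a ha => (he a (by omega)).trans (h1 a ha)
      · refine some_mem_N.2 ⟨fun a ha => (he a (by omega)).trans (h1 a ha), ?_⟩
        rintro rfl
        exact hi0 (he i0 (by omega)).symm
      · refine node_mem_N.2 ⟨fun a ha => (he a (by omega)).trans (h1 a ha), i0, ?_, ?_⟩
        · by_contra hj
          exact hne (he i (by omega))
        · rw [he i0 (by omega)]
          exact hi0

theorem isClosed_B (k : ℕ) (c : Ca) (m : ℕ) : IsClosed (B k c m) := by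
  rw [← isOpen_compl_iff]
  refine ⟨fun d m' h => ?_, fun d h => ?_⟩
  · by_cases hm : m' = m
    · subst hm
      have hdc : d ≠ c := fun e => h (some_mem_B.2 ⟨e, rfl⟩)
      obtain ⟨i0, hi0⟩ := ex_ne hdc
      refine ⟨i0 + 1, ?_⟩
      rintro p (rfl | ⟨j, hj, rfl⟩) hp
      · exact h hp
      · exact hi0 ((node_mem_B.1 hp).1.2 i0 (by omega))
    · refine ⟨0, ?_⟩
      rintro p (rfl | ⟨j, hj, rfl⟩) hp
      · exact h hp
      · exact hm (node_mem_B.1 hp).2
  · by_cases hdc : d = c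
    · subst hdc
      refine ⟨0, ?_⟩
      rintro p ⟨e, he, rfl | ⟨hne, m, rfl⟩ | ⟨j, m, ⟨i, hi, hne⟩, rfl⟩⟩ hp
      · exact none_mem_B hp
      · exact hne (some_mem_B.1 hp).1
      · exact hne ((node_mem_B.1 hp).1.2 i hi)
    · obtain ⟨i0, hi0⟩ := ex_ne hdc
      refine ⟨i0 + 1, ?_⟩
      rintro p ⟨e, he, rfl | ⟨hne, m, rfl⟩ | ⟨j, m, ⟨i, hi, hne⟩, rfl⟩⟩ hp
      · exact none_mem_B hp
      · obtain ⟨rfl, -⟩ := some_mem_B.1 hp
        exact hi0 (he i0 (by omega)).symm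
      · have hj : i0 < j := by
          by_contra hj
          exact hne (he i (by omega))
        have h1 := (node_mem_B.1 hp).1.2 i0 hj
        rw [he i0 (by omega)] at h1
        exact hi0 h1

theorem isClosed_N (k : ℕ) (c : Ca) : IsClosed (N k c) := by
  rw [← isOpen_compl_iff]
  refine ⟨fun d m h => ⟨0, ?_⟩, fun d h => ⟨k, ?_⟩⟩
  · rintro p (rfl | ⟨j, hj, rfl⟩) hp
    · exact h hp
    · obtain ⟨h1, i, hi, hne⟩ := node_mem_N.1 hp
      refine h (some_mem_N.2 ⟨h1, ?_⟩)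
      rintro rfl
      exact hne rfl
  · rintro p ⟨e, he, rfl | ⟨hne, m, rfl⟩ | ⟨j, m, ⟨i, hi, hne⟩, rfl⟩⟩ hp
    · exact h (none_mem_N.2 fun a ha => (he a ha).symm.trans (none_mem_N.1 hp a ha))
    · exact h (none_mem_N.2 fun a ha => (he a ha).symm.trans ((some_mem_N.1 hp).1 a ha))
    · exact h (none_mem_N.2 fun a ha => (he a ha).symm.trans ((node_mem_N.1 hp).1 a ha))

theorem isClosed_node (s : Node) (n : ℕ) : IsClosed ({node s n} : Set TreeDup) := by
  rw [← isOpen_compl_iff]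
  refine ⟨fun d m _ => ⟨s.1 + 1, ?_⟩, fun d _ => ⟨s.1 + 1, ?_⟩⟩
  · rintro p (rfl | ⟨j, hj, rfl⟩) hp
    · exact absurd hp (by simp)
    · have h1 : res d j = s := (node.inj hp).1
      have h2 : j = s.1 := congrArg Sigma.fst h1
      omega
  · rintro p ⟨e, he, rfl | ⟨hne, m, rfl⟩ | ⟨j, m, ⟨i, hi, hne⟩, rfl⟩⟩ hp
    · exact absurd hp (by simp)
    · exact absurd hp (by simp)
    · have h1 : res e j = s := (node.inj hp).1
      have h2 : j = s.1 := congrArg Sigma.fst h1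
      exact hne (he i (by omega))

theorem mem_B_self (k : ℕ) (c : Ca) (m : ℕ) : pt c m ∈ B k c m :=
  some_mem_B.2 ⟨rfl, rfl⟩

theorem mem_N_self (k : ℕ) (c : Ca) : base c ∈ N k c :=
  none_mem_N.2 fun _ _ => rfl

theorem clopen_basis (p : TreeDup) (U : Set TreeDup) (hU : IsOpen U) (hp : p ∈ U) :
    ∃ V, IsClopen V ∧ p ∈ V ∧ V ⊆ U := by
  rcases p with c | ⟨c, m⟩ | ⟨s, m⟩
  · obtain ⟨k, hk⟩ := hU.2 c hp
    exact ⟨_, ⟨isClosed_N k c, isOpen_N k c⟩, mem_N_self k c, hk⟩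
  · obtain ⟨k, hk⟩ := hU.1 c m hp
    exact ⟨_, ⟨isClosed_B k c m, isOpen_B k c m⟩, mem_B_self k c m, hk⟩
  · exact ⟨_, ⟨isClosed_node s m, isOpen_node s m⟩, rfl, Set.singleton_subset_iff.2 hp⟩

theorem zeroDim : TopologicalSpace.IsTopologicalBasis {V : Set TreeDup | IsClopen V} :=
  TopologicalSpace.isTopologicalBasis_of_isOpen_of_nhds (fun _ h => h.isOpen)
    fun p U hp hU => by
      obtain ⟨V, h1, h2, h3⟩ := clopen_basis p U hU hp
      exact ⟨V, h1, h2, h3⟩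

theorem isClosed_pt (p : TreeDup) : IsClosed ({p} : Set TreeDup) := by
  rcases p with c | ⟨c, m⟩ | ⟨s, m⟩
  · have : ({base c} : Set TreeDup) = ⋂ k, N k c := by
      ext p
      constructor
      · rintro rfl
        exact mem_iInter.2 fun k => mem_N_self k c
      · intro hp
        rw [mem_iInter] at hp
        rcases p with d | ⟨d, m⟩ | ⟨s, m⟩
        · have : d = c := by
            funext i
            exact none_mem_N.1 (hp (i + 1)) i (by omega)
          rw [this]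
          rfl
        · exact absurd (funext fun i => (some_mem_N.1 (hp (i + 1))).1 i (by omega))
            (some_mem_N.1 (hp 0)).2
        · obtain ⟨d, hd⟩ := exists_res s
          rw [hd] at hp
          obtain ⟨i, hi, hne⟩ := (node_mem_N.1 (hp 0)).2
          exact absurd ((node_mem_N.1 (hp (i + 1))).1 i (by omega)) hne
    rw [this]
    exact isClosed_iInter fun k => isClosed_N k c
  · have : ({pt c m} : Set TreeDup) = ⋂ k, B k c m := by
      ext p
      constructor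
      · rintro rfl
        exact mem_iInter.2 fun k => mem_B_self k c m
      · intro hp
        rw [mem_iInter] at hp
        rcases hp 0 with h | ⟨j, -, rfl⟩
        · exact h
        · have := (node_mem_B.1 (hp (j + 1))).1.1
          omega
    rw [this]
    exact isClosed_iInter fun k => isClosed_B k c m
  · exact isClosed_node s m

instance : T2Space TreeDup := ⟨by
  intro p q hpq
  obtain ⟨V, h1, h2, h3⟩ := clopen_basis p {q}ᶜ (isClosed_pt q).isOpen_compl hpq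
  exact ⟨V, Vᶜ, h1.isOpen, h1.compl.isOpen, h2, fun h => h3 h rfl, disjoint_compl_right⟩⟩

instance : FirstCountableTopology TreeDup := ⟨by
  rintro (c | ⟨c, m⟩ | ⟨s, m⟩)
  · have : (𝓝 (base c)).HasBasis (fun _ : ℕ => True) fun k => N k c := by
      refine ⟨fun U => ⟨fun hU => ?_, ?_⟩⟩
      · obtain ⟨V, h1, h2, h3⟩ := mem_nhds_iff.1 hU
        obtain ⟨k, hk⟩ := h2.2 c h3
        exact ⟨k, trivial, hk.trans h1⟩
      · rintro ⟨k, -, hk⟩
        exact mem_of_superset ((isOpen_N k c).mem_nhds (mem_N_self k c)) hk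
    exact this.isCountablyGenerated
  · have : (𝓝 (pt c m)).HasBasis (fun _ : ℕ => True)
        fun k => B k c m := by
      refine ⟨fun U => ⟨fun hU => ?_, ?_⟩⟩
      · obtain ⟨V, h1, h2, h3⟩ := mem_nhds_iff.1 hU
        obtain ⟨k, hk⟩ := h2.1 c m h3
        exact ⟨k, trivial, hk.trans h1⟩
      · rintro ⟨k, -, hk⟩
        exact mem_of_superset ((isOpen_B k c m).mem_nhds (mem_B_self k c m)) hk
    exact this.isCountablyGenerated
  · rw [(isOpen_singleton_iff_nhds_eq_pure _).1 (isOpen_node s m)]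
    exact Filter.isCountablyGenerated_pure _⟩

instance : TopologicalSpace.SeparableSpace TreeDup := ⟨by
  refine ⟨range (fun q : Node × ℕ => node q.1 q.2), countable_range _, ?_⟩
  rw [dense_iff_inter_open]
  rintro U hU ⟨c | ⟨c, m⟩ | ⟨s, m⟩, hp⟩
  · obtain ⟨k, hk⟩ := hU.2 c hp
    refine ⟨node (res (Function.update c k (!c k)) (k + 1)) 0, hk (node_mem_N.2 ⟨?_, ?_⟩),
      ⟨(_, _), rfl⟩⟩
    · intro i hi
      rw [Function.update_of_ne (by omega)]
    · exact ⟨k, by omega, by rw [Function.update_self]; simp⟩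
  · obtain ⟨k, hk⟩ := hU.1 c m hp
    exact ⟨node (res c k) m, hk (node_mem_B.2 ⟨⟨le_rfl, fun _ _ => rfl⟩, rfl⟩), ⟨(_, _), rfl⟩⟩
  · exact ⟨_, hp, ⟨(_, _), rfl⟩⟩⟩

theorem cylinder_mem (c : Ca) (k : ℕ) : {d : Ca | ∀ i < k, d i = c i} ∈ 𝓝 c := by
  have : {d : Ca | ∀ i < k, d i = c i} = ⋂ i ∈ Finset.range k, (fun d : Ca => d i) ⁻¹' {c i} := by
    ext d
    simp
  rw [this]
  refine (isOpen_biInter_finset fun i _ => ?_).mem_nhds (by simp)
  exact (isOpen_discrete _).preimage (continuous_apply i)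

theorem cylinder_basis (c : Ca) (V : Set Ca) (hV : V ∈ 𝓝 c) :
    ∃ k, {d : Ca | ∀ i < k, d i = c i} ⊆ V := by
  obtain ⟨U, hUV, hU, hc⟩ := mem_nhds_iff.1 hV
  obtain ⟨I, u, h1, h2⟩ := isOpen_pi_iff.1 hU c hc
  refine ⟨I.sup id + 1, fun d hd => hUV (h2 fun i hi => ?_)⟩
  rw [hd i (Nat.lt_succ_of_le (Finset.le_sup (f := id) hi))]
  exact (h1 i hi).2

theorem continuous_none : Continuous fun c : Ca => base c := by
  refine continuous_def.2 fun U hU => isOpen_iff_mem_nhds.2 fun c hc => ?_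
  obtain ⟨k, hk⟩ := hU.2 c hc
  exact mem_of_superset (cylinder_mem c k) fun d hd => hk (none_mem_N.2 hd)

theorem isCompact_none : IsCompact (range fun c : Ca => base c) :=
  isCompact_range continuous_none

theorem isCompact_B (c : Ca) (m : ℕ) : IsCompact (B 0 c m) := by
  classical
  refine isCompact_of_finite_subcover fun {ι} U hU hc => ?_
  obtain ⟨i, hi⟩ := mem_iUnion.1 (hc (mem_B_self 0 c m))
  obtain ⟨k, hk⟩ := (hU i).1 c m hi
  have h1 : ∀ j : ℕ, ∃ i, node (res c j) m ∈ U i := fun j =>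
    mem_iUnion.1 (hc (node_mem_B.2 ⟨⟨Nat.zero_le _, fun _ _ => rfl⟩, rfl⟩))
  choose g hg using h1
  refine ⟨insert i ((Finset.range k).image g), ?_⟩
  rintro p (rfl | ⟨j, -, rfl⟩)
  · exact mem_iUnion₂.2 ⟨i, Finset.mem_insert_self _ _, hi⟩
  · by_cases hj : j < k
    · exact mem_iUnion₂.2 ⟨g j, Finset.mem_insert_of_mem
        (Finset.mem_image_of_mem _ (Finset.mem_range.2 hj)), hg j⟩
    · exact mem_iUnion₂.2 ⟨i, Finset.mem_insert_self _ _,
        hk (node_mem_B.2 ⟨⟨by omega, fun _ _ => rfl⟩, rfl⟩)⟩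

theorem tree_cofin (U : Set TreeDup) (hU : IsOpen U) (h : ∀ c : Ca, base c ∈ U) :
    ∃ F : Finset Ca, (∀ d, d ∉ F → ∀ m, pt d m ∈ U) ∧
      ∀ s m, (∀ c ∈ F, ∀ j, s ≠ res c j) → node s m ∈ U := by
  choose k hk using fun c => hU.2 c (h c)
  obtain ⟨t, -, ht⟩ := isCompact_univ.elim_nhds_subcover
    (fun c : Ca => {d : Ca | ∀ i < k c, d i = c i}) fun c _ => cylinder_mem c (k c)
  refine ⟨t, fun d hd m => ?_, fun s m hs => ?_⟩
  · obtain ⟨c, hc, hdc⟩ := mem_iUnion₂.1 (ht (mem_univ d))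
    exact hk c (some_mem_N.2 ⟨hdc, fun e => hd (e ▸ hc)⟩)
  · obtain ⟨d, hd⟩ := exists_res s
    obtain ⟨c, hc, hdc⟩ := mem_iUnion₂.1 (ht (mem_univ d))
    refine hk c ?_
    rw [hd]
    refine node_mem_N.2 ⟨hdc, ?_⟩
    by_contra hcon
    push Not at hcon
    exact hs c hc s.1 (by conv_lhs => rw [hd]
                          exact res_eq.2 ⟨rfl, hcon⟩)

theorem isCompact_layer (m : ℕ) : IsCompact ({p : TreeDup | (∃ c, p = base c) ∨
    (∃ c, p = pt c m) ∨ ∃ s, p = node s m}) := by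
  classical
  refine isCompact_of_finite_subcover fun {ι} U hU hc => ?_
  obtain ⟨t, ht⟩ := isCompact_none.elim_finite_subcover U hU (by
    rintro _ ⟨c, rfl⟩
    exact hc (Or.inl ⟨c, rfl⟩))
  obtain ⟨F, hF1, hF2⟩ := tree_cofin (⋃ i ∈ t, U i) (isOpen_biUnion fun i _ => hU i)
    fun c => ht ⟨c, rfl⟩
  obtain ⟨t', ht'⟩ := (F.isCompact_biUnion fun c _ => isCompact_B c m).elim_finite_subcover U hU (by
    rintro p hp
    obtain ⟨c, -, hp⟩ := mem_iUnion₂.1 hp
    rcases hp with rfl | ⟨j, -, rfl⟩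
    · exact hc (Or.inr (Or.inl ⟨_, rfl⟩))
    · exact hc (Or.inr (Or.inr ⟨_, rfl⟩)))
  refine ⟨t ∪ t', ?_⟩
  rw [Finset.set_biUnion_union]
  rintro p (⟨c, rfl⟩ | ⟨c, rfl⟩ | ⟨s, rfl⟩)
  · exact Or.inl (ht ⟨c, rfl⟩)
  · by_cases hcF : c ∈ F
    · exact Or.inr (ht' (mem_iUnion₂.2 ⟨c, hcF, mem_B_self 0 c m⟩))
    · exact Or.inl (hF1 c hcF m)
  · by_cases hs : ∀ c ∈ F, ∀ j, s ≠ res c j
    · exact Or.inl (hF2 s m hs)
    · push Not at hs
      obtain ⟨c, hcF, j, rfl⟩ := hs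
      exact Or.inr (ht' (mem_iUnion₂.2 ⟨c, hcF,
        node_mem_B.2 ⟨⟨Nat.zero_le _, fun _ _ => rfl⟩, rfl⟩⟩))

instance : SigmaCompactSpace TreeDup := ⟨⟨_, isCompact_layer, by
  refine eq_univ_of_forall ?_
  rintro (c | ⟨c, m⟩ | ⟨s, m⟩)
  · exact mem_iUnion.2 ⟨0, Or.inl ⟨c, rfl⟩⟩
  · exact mem_iUnion.2 ⟨m, Or.inr (Or.inl ⟨c, rfl⟩)⟩
  · exact mem_iUnion.2 ⟨m, Or.inr (Or.inr ⟨s, rfl⟩)⟩⟩⟩

/-- the duplicate of the Cantor set as a subspace -/
def toTree : Dup Ca → TreeDup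
  | (c, none) => base c
  | (c, some m) => pt c m

theorem toTree_injective : Function.Injective toTree := by
  rintro ⟨c, _ | m⟩ ⟨d, _ | n⟩ h
  · rw [base.inj h]
  · exact absurd h (by simp [toTree])
  · exact absurd h (by simp [toTree])
  · obtain ⟨rfl, rfl⟩ := pt.inj h
    rfl

theorem isClosedEmbedding_toTree : IsClosedEmbedding toTree := by
  refine IsClosedEmbedding.of_continuous_injective_isClosedMap ?_ toTree_injective ?_
  · refine continuous_def.2 fun U hU c hc => ?_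
    obtain ⟨k, hk⟩ := hU.2 c hc
    refine ⟨_, cylinder_mem c k, fun d hd o ho => ?_⟩
    rcases o with _ | m
    · exact hk (none_mem_N.2 hd)
    · exact hk (some_mem_N.2 ⟨hd, fun e => absurd (ho e) (by simp)⟩)
  · intro A hA
    rw [← isOpen_compl_iff] at hA ⊢
    refine ⟨fun c m h => ⟨0, ?_⟩, fun c h => ?_⟩
    · rintro p (rfl | ⟨j, -, rfl⟩)
      · exact h
      · rintro ⟨⟨a, _ | m⟩, -, ha⟩
        · exact absurd ha (by simp [toTree])
        · exact absurd ha (by simp [toTree])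
    · obtain ⟨V, hV, hVA⟩ := hA c (fun hc => h ⟨_, hc, rfl⟩)
      obtain ⟨k, hk⟩ := cylinder_basis c V hV
      refine ⟨k, ?_⟩
      rintro p ⟨e, he, rfl | ⟨hne, m, rfl⟩ | ⟨j, m, -, rfl⟩⟩ ⟨a, ha, hae⟩
      · obtain rfl : a = (e, none) := toTree_injective hae
        exact hVA e (hk he) none (fun _ => rfl) ha
      · obtain rfl : a = (e, some m) := toTree_injective hae
        exact hVA e (hk he) (some m) (fun h => absurd h hne) ha
      · obtain ⟨a, _ | m⟩ := a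
        · exact absurd hae (by simp [toTree])
        · exact absurd hae (by simp [toTree])

theorem crit_tree : Crit TreeDup :=
  (crit_dup (C := Ca) (by simp)).map isClosedEmbedding_toTree

end Pool.Agent.KS6_17.VS
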